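import Pool.Agent.Lib.H74Q.Fin

set_option autoImplicit false

/-!
The null Penrose inequality for null hypersurfaces which are crossed by arbitrary matter but not by gravitational radiation.
-/

namespace Pool.Agent.Lib.H17S.Retired.NoRadiation

open NullPen

/-- Let `N` be a null hypersurface which starts at a closed spacelike surface `S` with spherical topology, trapped or marginally
trapped (`θ <= 0`), and extends along its affine generators to null infinity, asymptotically flat. It may be crossed by arbitrary
matter satisfying the dominant energy condition, but no gravitational radiation crosses it: the component `C(L, X, L, Y)` of the Weyl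
tensor vanishes. The shear of `N` and the torsion of `S` are arbitrary. Then the Bondi energy of `N` for every asymptotic observer is at
least `sqrt (|S| / 16 pi)`; if `(E, P)` is the energy-momentum, that is, if the observer with four-velocity `(γ, u)` describes `N` by
data with Bondi energy `γ E - u.P`, then it is timelike and the mass `sqrt (E^2 - |P|^2)` is at least `sqrt (|S| / 16 pi)`. -/
theorem result : (∀ D : MatterData, D.Quiet → ∀ E, D.BondiEnergy E → Real.sqrt (D.area 0 / (16 * Real.pi)) ≤ E) ∧
    ∀ (A E : ℝ) (P : Fin 3 → ℝ), (∀ (u : Fin 3 → ℝ) (γ : ℝ), 0 < γ → γ ^ 2 = 1 + ∑ i, u i ^ 2 →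
      ∃ D : MatterData, D.Quiet ∧ D.area 0 = A ∧ D.BondiEnergy (γ * E - ∑ i, u i * P i)) →
    Real.sqrt (∑ i, P i ^ 2) < E ∧ Real.sqrt (A / (16 * Real.pi)) ≤ Real.sqrt (E ^ 2 - ∑ i, P i ^ 2) :=
  NullQ.mainQ

end Pool.Agent.Lib.H17S.Retired.NoRadiation
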